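import Pool.Agent.H162Z.KokRing

set_option autoImplicit false

namespace Pool.Agent.Results.MP_fb8dd6_al.ACounterexample

open Pool.Agent.H162Z.Kok

/-- Kokorin's question has a negative answer: there are an orderable group `G` and a family of relatively
convex subgroups whose union `H` is an infrainvariant (even normal) subgroup that is not relatively
convex. -/
theorem result : ∃ (G : Type) (_ : Group G) (I : Type) (F : I → Subgroup G) (H : Subgroup G),
    Orderable G ∧ (∀ i, RelConvex (F i)) ∧ (H : Set G) = ⋃ i, (F i : Set G) ∧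
      H.Normal ∧ Infrainvariant H ∧ ¬ RelConvex H := by
  obtain ⟨G, _, H, hN, hK, hH⟩ := main
  choose K hK1 hK2 hK3 using hK
  refine ⟨G, inferInstance, H, fun h => K h.1 h.2, H, ?_, fun h => hK1 h.1 h.2, ?_, hN, ?_, hH⟩
  · obtain ⟨o, ho, -⟩ := hK1 1 H.one_mem
    exact ⟨o, ho⟩
  · ext g
    simp only [Set.mem_iUnion, SetLike.mem_coe]
    exact ⟨fun hg => ⟨⟨g, hg⟩, hK3 g hg⟩, fun ⟨h, hg⟩ => hK2 h.1 h.2 hg⟩
  · intro g
    right
    rintro _ ⟨h, hh, rfl⟩
    simpa using hN.conj_mem h hh g⁻¹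

end Pool.Agent.Results.MP_fb8dd6_al.ACounterexample
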